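import Pool.Agent.Helper3.TG.GoalsTr

/-!
# Project TG (MP_a41896_nt), packet RENC: renaming by an equivalence
-/

set_option autoImplicit false

open MvPolynomial

namespace Pool.Agent.Helper98.TG.RENC

open Pool.Agent.Helper5.UN (hv CodimGT)

theorem hv_rename {R S : Type} [CommRing R] [CommRing S] (φ : R →+* S) {σ τ : Type} [Fintype σ]
    [Fintype τ] [DecidableEq τ] (e : σ ≃ τ) (E : τ → ℕ) (f : MvPolynomial σ R)
    (y : τ → Fin 2 → S) :
    hv φ E (rename e f) y = hv φ (fun i => E (e i)) f (fun i => y (e i)) := by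
  unfold hv
  rw [support_rename_of_injective e.injective, Finset.sum_image
    (fun a _ b _ h => Finsupp.mapDomain_injective e.injective h)]
  refine Finset.sum_congr rfl fun m _ => ?_
  rw [coeff_rename_mapDomain _ e.injective]
  congr 1
  rw [← Equiv.prod_comp e]
  refine Finset.prod_congr rfl fun i _ => ?_
  rw [Finsupp.mapDomain_apply e.injective]

theorem t : Pool.Agent.Helper3.TG.RENC := by
  intro K _ σ τ _ _ _ e D s ι f hf Ω _ _ y hy h0
  obtain ⟨T, hT, hA⟩ := hf Ω (fun i => y (e i)) (fun i => hy (e i)) (fun j => by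
    rw [← h0 j, hv_rename])
  refine ⟨T, by rw [← Fintype.card_congr e]; exact hT, fun i => ?_⟩
  have := hA (e.symm i)
  rwa [Equiv.apply_symm_apply] at this

end Pool.Agent.Helper98.TG.RENC
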